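import Mathlib
import Pool.Agent.H543R3.Transfer

set_option autoImplicit false

/-!
Excited random walks in i.i.d. elliptic cookie environments have zero directional speed on the
event that they do not escape to infinity.
-/

namespace Pool.Agent.Results.MP_f4733e_pr.ZeroSpeed

open MeasureTheory ProbabilityTheory Filter

/-- The unit vector of the lattice indexed by `e`: it is `+e_i` for `e = (i, true)` and `-e_i` for
`e = (i, false)`. -/
def unitVec {d : ℕ} (e : Fin d × Bool) : Fin d → ℤ := Pi.single e.1 (if e.2 then (1 : ℤ) else -1)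

/-- Cookie environments: `ω z e k` is the probability of a step in direction `e` when the walk is
at `z` for the `(k+1)`-st time, `k = 0, 1, 2, ...`. -/
abbrev Cookies (d : ℕ) : Type := (Fin d → ℤ) → (Fin d × Bool) → ℕ → ℝ

/-- `X` is an excited random walk started from the origin in the random cookie environment `env`,
under the probability measure `μ`: almost surely every cookie is a probability vector and
`X 0 = 0`, and, given the environment and the walk up to time `n`, the walk makes the step `e` with
the probability prescribed by the cookie at `X n` whose index is the number of earlier visits. -/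
structure IsERW {d : ℕ} {Ω : Type} [MeasurableSpace Ω] (μ : Measure Ω) (env : Ω → Cookies d)
    (X : ℕ → Ω → (Fin d → ℤ)) : Prop where
  measurable_env : Measurable env
  measurable_walk : ∀ n, Measurable (X n)
  nonneg : ∀ᵐ a ∂μ, ∀ z e k, 0 ≤ env a z e k
  sum_eq_one : ∀ᵐ a ∂μ, ∀ z k, ∑ e, env a z e k = 1
  start : ∀ᵐ a ∂μ, X 0 a = 0
  step : ∀ (n : ℕ) (x : ℕ → (Fin d → ℤ)) (e : Fin d × Bool) (A : Set (Cookies d)),
    MeasurableSet A →
      μ.real {a | env a ∈ A ∧ (∀ m ≤ n, X m a = x m) ∧ X (n + 1) a = x n + unitVec e} =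
        ∫ a in {a | env a ∈ A ∧ ∀ m ≤ n, X m a = x m},
          env a (x n) e ((Finset.range n).filter (fun m => x m = x n)).card ∂μ

/-- In every dimension, an excited random walk in an i.i.d. elliptic cookie environment satisfies
`X_n · ℓ / n → 0` almost surely on the event that `|X_n|` does not tend to infinity. -/
theorem result : ∀ (d : ℕ), 1 ≤ d →
    ∀ (Ω : Type) [MeasurableSpace Ω] (μ : Measure Ω) [IsProbabilityMeasure μ]
      (env : Ω → Cookies d) (X : ℕ → Ω → (Fin d → ℤ)),
      IsERW μ env X →
      iIndepFun (fun (z : Fin d → ℤ) (a : Ω) => env a z) μ →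
      (∀ z : Fin d → ℤ, IdentDistrib (fun a => env a z) (fun a => env a 0) μ μ) →
      (∀ (z : Fin d → ℤ) (e : Fin d × Bool) (k : ℕ), ∀ᵐ a ∂μ, 0 < env a z e k) →
      ∀ l : Fin d → ℝ, l ≠ 0 →
        ∀ᵐ a ∂μ, ¬ Tendsto (fun n => Real.sqrt (∑ i, (X n a i : ℝ) ^ 2)) atTop atTop →
          Tendsto (fun n : ℕ => (∑ i, (X n a i : ℝ) * l i) / n) atTop (nhds 0) := by
  intro d hd Ω _ μ _ env X hX hind hid hel l _
  exact Pool.H543.ERW.main d hd μ env X hX.measurable_env hX.measurable_walk hX.nonneg
    hX.sum_eq_one hX.start hX.step hind hid hel l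

end Pool.Agent.Results.MP_f4733e_pr.ZeroSpeed
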